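import Mathlib

/-!
# Level lines (LL)

The entropy of data known up to levels is a function of the vector of the levels which is
monotone, Lipschitz and submodular. If the levels are affine functions on a planar domain with
gradients in an open half plane, then at most points the next digits of data with different rays
of gradients are independent given the data at the natural levels.
-/

set_option autoImplicit false
set_option linter.unusedSectionVars false
set_option linter.unusedVariables false

namespace Pool.GEN.LL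

open Finset Real

variable {ι : Type} [Fintype ι] [DecidableEq ι] {h : (ι → ℝ) → ℝ} {K : ℝ}

/-- An entropy as a function of the levels. -/
structure Lev (h : (ι → ℝ) → ℝ) (K : ℝ) : Prop where
  mono : Monotone h
  sub : ∀ L M, h (L ⊔ M) + h (L ⊓ M) ≤ h L + h M
  lip : ∀ L s, 0 ≤ s → h (fun i => L i + s) ≤ h L + K * s

/-- The mutual information of the blocks `a` and `b` given the levels `L`. -/
def mi (h : (ι → ℝ) → ℝ) (L a b : ι → ℝ) : ℝ := h (L + a) + h (L + b) - h (L + a + b) - h L

/-- The block of length `x` of the coordinates in `A`. -/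
def blk (A : Finset ι) (x : ℝ) : ι → ℝ := fun i => if i ∈ A then x else 0

/-- Disjoint supports. -/
def Dsj (a b : ι → ℝ) : Prop := ∀ i, a i = 0 ∨ b i = 0

theorem Dsj.symm {a b : ι → ℝ} (h : Dsj a b) : Dsj b a := fun i => (h i).symm

theorem blk_nonneg (A : Finset ι) {x : ℝ} (hx : 0 ≤ x) : 0 ≤ blk A x := by
  intro i
  unfold blk
  split_ifs
  · exact hx
  · exact le_rfl

theorem blk_mono (A : Finset ι) {x y : ℝ} (hxy : x ≤ y) : blk A x ≤ blk A y := by
  intro i
  unfold blk
  split_ifs
  · exact hxy
  · exact le_rfl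

theorem blk_dsj {A B : Finset ι} (hAB : Disjoint A B) (x y : ℝ) : Dsj (blk A x) (blk B y) := by
  intro i
  unfold blk
  by_cases hi : i ∈ A
  · exact Or.inr (if_neg (Finset.disjoint_left.1 hAB hi))
  · exact Or.inl (if_neg hi)

theorem blk_add {A B : Finset ι} (hAB : Disjoint A B) (x : ℝ) :
    blk (A ∪ B) x = blk A x + blk B x := by
  funext i
  simp only [blk, Pi.add_apply, Finset.mem_union]
  by_cases hi : i ∈ A
  · have hj : i ∉ B := Finset.disjoint_left.1 hAB hi
    rw [if_pos (Or.inl hi), if_pos hi, if_neg hj, add_zero]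
  · by_cases hj : i ∈ B
    · rw [if_pos (Or.inr hj), if_neg hi, if_pos hj, zero_add]
    · rw [if_neg (by tauto), if_neg hi, if_neg hj, add_zero]

theorem mi_symm (h : (ι → ℝ) → ℝ) (L a b : ι → ℝ) : mi h L a b = mi h L b a := by
  unfold mi
  rw [add_right_comm L a b]
  ring

/-- Chain rule. -/
theorem mi_add (h : (ι → ℝ) → ℝ) (L a a' b : ι → ℝ) :
    mi h L (a + a') b = mi h L a b + mi h (L + a) a' b := by
  unfold mi
  rw [← add_assoc L a a']
  ring

theorem mi_zero (h : (ι → ℝ) → ℝ) (L b : ι → ℝ) : mi h L 0 b = 0 := by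
  unfold mi
  rw [add_zero]
  ring

theorem Lev.nonneg_mi (H : Lev h K) (L : ι → ℝ) {a b : ι → ℝ} (ha : 0 ≤ a) (hb : 0 ≤ b)
    (hab : Dsj a b) : 0 ≤ mi h L a b := by
  have h1 := H.sub (L + a) (L + b)
  have e1 : (L + a) ⊔ (L + b) = L + a + b := by
    funext i
    simp only [Pi.sup_apply, Pi.add_apply]
    rcases hab i with e | e
    · rw [e, add_zero]
      exact sup_of_le_right (by linarith [hb i, show (0 : ι → ℝ) i = 0 from rfl])
    · rw [e, add_zero, add_zero]
      exact sup_of_le_left (by linarith [ha i, show (0 : ι → ℝ) i = 0 from rfl])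
  have e2 : (L + a) ⊓ (L + b) = L := by
    funext i
    simp only [Pi.inf_apply, Pi.add_apply]
    rcases hab i with e | e
    · rw [e, add_zero]
      exact inf_of_le_left (by linarith [hb i, show (0 : ι → ℝ) i = 0 from rfl])
    · rw [e, add_zero]
      exact inf_of_le_right (by linarith [ha i, show (0 : ι → ℝ) i = 0 from rfl])
  rw [e1, e2] at h1
  unfold mi
  linarith

theorem Lev.mi_left (H : Lev h K) (L : ι → ℝ) {a a' b : ι → ℝ} (ha : 0 ≤ a) (haa : a ≤ a')
    (hb : 0 ≤ b) (hab : Dsj a' b) : mi h L a b ≤ mi h L a' b := by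
  have e : a' = a + (a' - a) := by
    rw [add_sub_cancel]
  have hd : Dsj (a' - a) b := by
    intro i
    rcases hab i with e1 | e1
    · refine Or.inl ?_
      have h1 := ha i
      have h2 := haa i
      simp only [Pi.sub_apply]
      rw [e1] at h2 ⊢
      have h3 : (0 : ι → ℝ) i = 0 := rfl
      rw [h3] at h1
      linarith
    · exact Or.inr e1
  have h2 := H.nonneg_mi (L + a) (sub_nonneg.2 haa) hb hd
  rw [e, mi_add]
  linarith

theorem Lev.mi_mono (H : Lev h K) (L : ι → ℝ) {a a' b b' : ι → ℝ} (ha : 0 ≤ a) (haa : a ≤ a')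
    (hb : 0 ≤ b) (hbb : b ≤ b') (hab : Dsj a' b') : mi h L a b ≤ mi h L a' b' := by
  have hd : Dsj a' b := by
    intro i
    rcases hab i with e1 | e1
    · exact Or.inl e1
    · refine Or.inr ?_
      have h1 := hb i
      have h2 := hbb i
      rw [e1] at h2
      exact le_antisymm h2 h1
  have h1 := H.mi_left L ha haa hb hd
  have h2 := H.mi_left L hb hbb (ha.trans haa) hab.symm
  rw [mi_symm h L b a', mi_symm h L b' a'] at h2
  exact h1.trans h2

/-- More in the condition. -/
theorem Lev.mi_cond (H : Lev h K) (L : ι → ℝ) {a b z : ι → ℝ} (ha : 0 ≤ a) (hb : 0 ≤ b)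
    (hz : 0 ≤ z) (hab : Dsj a b) (hza : Dsj z a) (hzb : Dsj z b) :
    mi h L a b ≤ mi h (L + z) a b + mi h L z b := by
  have hd : Dsj (z + a) b := by
    intro i
    rcases hab i with e1 | e1
    · rcases hzb i with e2 | e2
      · refine Or.inl ?_
        simp only [Pi.add_apply]
        rw [e1, e2, add_zero]
      · exact Or.inr e2
    · exact Or.inr e1
  have h1 := H.mi_left L ha (le_add_of_nonneg_left hz) hb hd
  rw [mi_add] at h1
  linarith

/-- The conditional entropy of a block decreases when the other levels grow. -/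
theorem Lev.anti (H : Lev h K) {L M a : ι → ℝ} (ha : 0 ≤ a) (hLM : L ≤ M)
    (hd : Dsj (M - L) a) : h (M + a) - h M ≤ h (L + a) - h L := by
  have h1 := H.nonneg_mi L (sub_nonneg.2 hLM) ha hd
  unfold mi at h1
  rw [add_sub_cancel] at h1
  linarith

theorem Lev.blk_le (H : Lev h K) (A : Finset ι) (L : ι → ℝ) {x : ℝ} (hx : 0 ≤ x) :
    h (L + blk A x) ≤ h L + K * x := by
  refine le_trans (H.mono ?_) (H.lip L x hx)
  intro i
  simp only [Pi.add_apply, blk]
  split_ifs
  · exact le_rfl
  · linarith

theorem Lev.K_nonneg (H : Lev h K) : 0 ≤ K := by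
  have h1 := H.lip 0 1 zero_le_one
  have h2 : h 0 ≤ h (fun i => (0 : ι → ℝ) i + 1) := H.mono fun i => by
    simp only [Pi.zero_apply]
    norm_num
  linarith

theorem Lev.lips (H : Lev h K) (hK : 0 ≤ K) (L M : ι → ℝ) : h L ≤ h M + K * ‖L - M‖ := by
  refine le_trans (H.mono ?_) (H.lip M ‖L - M‖ (norm_nonneg _))
  intro i
  have h1 := norm_le_pi_norm (L - M) i
  rw [Real.norm_eq_abs, Pi.sub_apply] at h1
  linarith [le_abs_self (L i - M i)]

theorem Lev.cont (H : Lev h K) (hK : 0 ≤ K) : Continuous h := by
  have hl : LipschitzWith ⟨K, hK⟩ h := by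
    refine LipschitzWith.of_dist_le_mul fun L M => ?_
    rw [Real.dist_eq, dist_eq_norm, abs_le]
    have h1 := H.lips hK L M
    have h2 := H.lips hK M L
    rw [norm_sub_rev] at h2
    constructor
    · change -(K * ‖L - M‖) ≤ _
      linarith
    · change _ ≤ K * ‖L - M‖
      linarith
  exact hl.continuous

/-- The trivial bound. -/
theorem Lev.mi_le (H : Lev h K) (L : ι → ℝ) {a : ι → ℝ} (ha : 0 ≤ a) (A : Finset ι) {x : ℝ}
    (hx : 0 ≤ x) : mi h L a (blk A x) ≤ K * x := by
  have h1 := H.blk_le A L hx
  have h2 : h (L + a) ≤ h (L + a + blk A x) := H.mono (le_add_of_nonneg_right (blk_nonneg A hx))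
  unfold mi
  linarith

/-! ### Averages along lines -/

open MeasureTheory intervalIntegral

theorem cont_shift {G : ℝ → ℝ → ℝ} (hG : Continuous (Function.uncurry G)) (v : ℝ) :
    Continuous (Function.uncurry fun s c => G s (c - v * s)) := by
  have e : (Function.uncurry fun s c => G s (c - v * s)) =
      (Function.uncurry G) ∘ fun p : ℝ × ℝ => (p.1, p.2 - v * p.1) := rfl
  rw [e]
  exact hG.comp (by fun_prop)

theorem cont_fst {G : ℝ → ℝ → ℝ} (hG : Continuous (Function.uncurry G)) (c : ℝ) :
    Continuous fun s => G s c := by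
  have e : (fun s => G s c) = (Function.uncurry G) ∘ fun s : ℝ => (s, c) := rfl
  rw [e]
  exact hG.comp (by fun_prop)

theorem cont_snd {G : ℝ → ℝ → ℝ} (hG : Continuous (Function.uncurry G)) (s : ℝ) :
    Continuous fun c => G s c := by
  have e : (fun c => G s c) = (Function.uncurry G) ∘ fun c : ℝ => (s, c) := rfl
  rw [e]
  exact hG.comp (by fun_prop)

/-- If the integrals over all segments of length `T` in a given direction are at most `M`, then so
are the averages over squares. -/
theorem line_avg {G : ℝ → ℝ → ℝ} (hG : Continuous (Function.uncurry G)) (h0 : ∀ s t, 0 ≤ G s t)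
    (v T M R : ℝ) (hT : 0 < T) (hR : 0 ≤ R)
    (hM : ∀ s t, ∫ τ in (0 : ℝ)..T, G (s + τ) (t - v * τ) ≤ M) :
    ∫ s in (-R)..R, ∫ t in (-R)..R, G s t ≤ (2 * R / T + 1) * M * (2 * (R * (1 + |v|))) := by
  have hM0 : 0 ≤ M := le_trans (integral_nonneg hT.le fun τ _ => h0 _ _) (hM 0 0)
  set R' := R * (1 + |v|) with hR'
  have hRR : R ≤ R' := by
    rw [hR']
    nlinarith [abs_nonneg v]
  have hR0 : 0 ≤ R' := hR.trans hRR
  have hc := cont_shift hG v
  -- the sheared square
  have h1 : ∀ s ∈ Set.Icc (-R) R, ∫ t in (-R)..R, G s t ≤ ∫ c in (-R')..R', G s (c - v * s) := by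
    intro s hs
    have e : ∫ t in (-R)..R, G s t = ∫ c in (-R + v * s)..(R + v * s), G s (c - v * s) := by
      rw [integral_comp_sub_right (fun c => G s c)]
      simp only [add_sub_cancel_right]
    rw [e]
    have h2 : |v * s| ≤ |v| * R := by
      rw [abs_mul]
      exact mul_le_mul_of_nonneg_left (abs_le.2 hs) (abs_nonneg v)
    have h3 := abs_le.1 h2
    refine integral_mono_interval ?_ ?_ ?_ (Filter.Eventually.of_forall fun c => h0 _ _)
      ((cont_snd hc s).intervalIntegrable _ _)
    · rw [hR']
      linarith [h3.1, h3.2]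
    · linarith
    · rw [hR']
      linarith [h3.1, h3.2]
  have h2 : ∫ s in (-R)..R, ∫ t in (-R)..R, G s t ≤
      ∫ s in (-R)..R, ∫ c in (-R')..R', G s (c - v * s) := by
    refine integral_mono_on (by linarith) ?_ ?_ h1
    · exact (continuous_parametric_intervalIntegral_of_continuous' hG _ _).intervalIntegrable _ _
    · exact (continuous_parametric_intervalIntegral_of_continuous' hc _ _).intervalIntegrable _ _
  have h3 : ∫ s in (-R)..R, ∫ c in (-R')..R', G s (c - v * s) =
      ∫ c in (-R')..R', ∫ s in (-R)..R, G s (c - v * s) := by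
    refine MeasureTheory.intervalIntegral_intervalIntegral_swap ?_
    have hk : IsCompact (Set.uIcc (-R) R ×ˢ Set.uIcc (-R') R') :=
      isCompact_uIcc.prod isCompact_uIcc
    have h4 := hc.continuousOn.integrableOn_compact (μ := volume.prod volume) hk
    exact h4.mono_set (Set.prod_mono Set.uIoc_subset_uIcc Set.uIoc_subset_uIcc)
  -- each line
  obtain ⟨n, hn⟩ : ∃ n : ℕ, 2 * R / T ≤ n ∧ (n : ℝ) ≤ 2 * R / T + 1 :=
    ⟨⌈2 * R / T⌉₊, Nat.le_ceil _, (Nat.ceil_lt_add_one (by positivity)).le⟩
  have h4 : ∀ c, ∫ s in (-R)..R, G s (c - v * s) ≤ n * M := by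
    intro c
    have hcc : Continuous fun s => G s (c - v * s) := cont_fst hc c
    have h5 : R ≤ -R + n * T := by
      have h6 := hn.1
      rw [div_le_iff₀ hT] at h6
      linarith
    have h6 : ∫ s in (-R)..R, G s (c - v * s) ≤ ∫ s in (-R)..(-R + n * T), G s (c - v * s) :=
      integral_mono_interval le_rfl (by linarith) h5
        (Filter.Eventually.of_forall fun c => h0 _ _) (hcc.intervalIntegrable _ _)
    refine h6.trans ?_
    have h7 := sum_integral_adjacent_intervals (f := fun s => G s (c - v * s)) (μ := volume)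
      (a := fun k : ℕ => -R + k * T) (n := n) fun k _ => hcc.intervalIntegrable _ _
    simp only [Nat.cast_zero, zero_mul, add_zero] at h7
    rw [← h7]
    calc ∑ k ∈ Finset.range n, ∫ s in (-R + k * T)..(-R + ((k + 1 : ℕ) : ℝ) * T),
          G s (c - v * s) ≤ ∑ k ∈ Finset.range n, M := by
          refine Finset.sum_le_sum fun k _ => ?_
          have e : ∫ s in (-R + k * T)..(-R + ((k + 1 : ℕ) : ℝ) * T), G s (c - v * s) =
              ∫ τ in (0 : ℝ)..T, G (-R + k * T + τ) (c - v * (-R + k * T) - v * τ) := by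
            have h8 := integral_comp_add_left (a := 0) (b := T) (fun s => G s (c - v * s))
              (-R + k * T)
            rw [add_zero] at h8
            have e1 : -R + ((k + 1 : ℕ) : ℝ) * T = -R + k * T + T := by
              push_cast
              ring
            rw [e1, ← h8]
            refine integral_congr fun τ _ => ?_
            rw [show c - v * (-R + k * T) - v * τ = c - v * (-R + k * T + τ) by ring]
          rw [e]
          exact hM _ _
      _ = n * M := by
          rw [Finset.sum_const, Finset.card_range, nsmul_eq_mul]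
  have h5 : ∫ c in (-R')..R', ∫ s in (-R)..R, G s (c - v * s) ≤ ∫ c in (-R')..R', n * M := by
    refine integral_mono_on (by linarith) ?_ ?_ fun c _ => h4 c
    · have hs : Continuous (Function.uncurry fun c s => G s (c - v * s)) := by
        have e : (Function.uncurry fun c s => G s (c - v * s)) =
          (Function.uncurry fun s c => G s (c - v * s)) ∘ Prod.swap := rfl
        rw [e]
        exact hc.comp continuous_swap
      exact (continuous_parametric_intervalIntegral_of_continuous' hs _ _).intervalIntegrable _ _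
    · exact (continuous_const).intervalIntegrable _ _
  rw [intervalIntegral.integral_const, smul_eq_mul] at h5
  calc ∫ s in (-R)..R, ∫ t in (-R)..R, G s t ≤
      ∫ s in (-R)..R, ∫ c in (-R')..R', G s (c - v * s) := h2
    _ = ∫ c in (-R')..R', ∫ s in (-R)..R, G s (c - v * s) := h3
    _ ≤ (R' - -R') * (n * M) := h5
    _ = (n : ℝ) * M * (2 * R') := by ring
    _ ≤ (2 * R / T + 1) * M * (2 * R') := by
        refine mul_le_mul_of_nonneg_right ?_ (by positivity)
        exact mul_le_mul_of_nonneg_right hn.2 hM0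

end Pool.GEN.LL
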