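import Pool.Agent.H41.GEN.Ll

/-!
# Level lines (LL): the local estimate
-/

set_option autoImplicit false
set_option linter.unusedSectionVars false
set_option linter.unusedVariables false

namespace Pool.GEN.LL

open Finset Real MeasureTheory intervalIntegral

variable {ι : Type} [Fintype ι] [DecidableEq ι] {h : (ι → ℝ) → ℝ} {K : ℝ}

/-- The levels are affine up to `e`: the coordinate `i` has rate `c i` and slope `u i`. -/
def Aff (L : ℝ → ℝ → ι → ℝ) (a c u : ι → ℝ) (e : ℝ) : Prop :=
  ∀ s t i, |L s t i - (a i + c i * (t + u i * s))| ≤ e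

theorem cont_mi (H : Lev h K) {L : ℝ → ℝ → ι → ℝ} (hL : Continuous (Function.uncurry L))
    (a b : ι → ℝ) : Continuous (Function.uncurry fun s t => mi h (L s t) a b) := by
  have hc := H.cont H.K_nonneg
  have e : (Function.uncurry fun s t => mi h (L s t) a b) =
      fun p => mi h ((Function.uncurry L) p) a b := rfl
  rw [e]
  unfold mi
  exact (((hc.comp (hL.add continuous_const)).add (hc.comp (hL.add continuous_const))).sub
    (hc.comp ((hL.add continuous_const).add continuous_const))).sub (hc.comp hL)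

/-- The telescope along one line. -/
theorem telescope (H : Lev h K) (A : Finset ι) {x y σ T : ℝ} (hx : 0 ≤ x) (hy : 0 ≤ y)
    (hσ : 0 ≤ σ) (hT : 0 ≤ T) (c : ℝ → ι → ℝ) (hc : Continuous c)
    (hA : ∀ τ τ', ∀ i ∈ A, c τ i = c τ' i)
    (hB : ∀ τ, ∀ i ∉ A, c τ i ≤ c (τ + σ) i) (B : Finset ι) (hAB : Disjoint A B)
    (hBx : ∀ τ, ∀ i ∈ B, c τ i + x ≤ c (τ + σ) i) :
    ∫ τ in (0 : ℝ)..T, mi h (c τ) (blk A y) (blk B x) ≤ σ * (K * y) := by
  have hK := H.K_nonneg
  have hcont := H.cont hK
  set f : ℝ → ℝ := fun τ => h (c τ + blk A y) - h (c τ) with hf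
  have hfc : Continuous f :=
    (hcont.comp (hc.add continuous_const)).sub (hcont.comp hc)
  have h1 : ∀ τ, mi h (c τ) (blk A y) (blk B x) ≤ f τ - f (τ + σ) := by
    intro τ
    have h2 : c τ + blk B x ≤ c (τ + σ) := by
      intro i
      simp only [Pi.add_apply, blk]
      by_cases hi : i ∈ B
      · rw [if_pos hi]
        exact hBx τ i hi
      · rw [if_neg hi, add_zero]
        by_cases hj : i ∈ A
        · exact (hA τ (τ + σ) i hj).le
        · exact hB τ i hj
    have h3 : Dsj (c (τ + σ) - (c τ + blk B x)) (blk A y) := by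
      intro i
      by_cases hj : i ∈ A
      · refine Or.inl ?_
        simp only [Pi.sub_apply, Pi.add_apply, blk]
        rw [if_neg (Finset.disjoint_left.1 hAB hj), hA (τ + σ) τ i hj]
        ring
      · refine Or.inr ?_
        simp only [blk]
        rw [if_neg hj]
    have h4 := H.anti (blk_nonneg A hy) h2 h3
    unfold mi
    rw [add_right_comm (c τ) (blk A y) (blk B x)]
    simp only [hf]
    linarith
  have hm : Continuous fun τ => mi h (c τ) (blk A y) (blk B x) := by
    unfold mi
    exact (((hcont.comp (hc.add continuous_const)).add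
      (hcont.comp (hc.add continuous_const))).sub
      (hcont.comp ((hc.add continuous_const).add continuous_const))).sub (hcont.comp hc)
  have hfs : Continuous fun τ => f (τ + σ) := hfc.comp (by fun_prop)
  have h2 : ∫ τ in (0 : ℝ)..T, mi h (c τ) (blk A y) (blk B x) ≤
      ∫ τ in (0 : ℝ)..T, (f τ - f (τ + σ)) :=
    integral_mono_on hT (hm.intervalIntegrable _ _)
      ((hfc.sub hfs).intervalIntegrable _ _) fun τ _ => h1 τ
  rw [integral_sub (hfc.intervalIntegrable _ _) (hfs.intervalIntegrable _ _),
    integral_comp_add_right (fun τ => f τ), zero_add,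
    integral_interval_sub_interval_comm (hfc.intervalIntegrable _ _)
      (hfc.intervalIntegrable _ _) (hfc.intervalIntegrable _ _)] at h2
  have hf0 : ∀ τ, 0 ≤ f τ := fun τ => by
    simp only [hf]
    have := H.mono (le_add_of_nonneg_right (a := c τ) (blk_nonneg A hy))
    linarith
  have hf1 : ∀ τ, f τ ≤ K * y := fun τ => by
    simp only [hf]
    have := H.blk_le A (c τ) hy
    linarith
  have h3 : 0 ≤ ∫ τ in T..(T + σ), f τ := integral_nonneg (by linarith) fun τ _ => hf0 τ
  have h4 : ∫ τ in (0 : ℝ)..σ, f τ ≤ ∫ τ in (0 : ℝ)..σ, K * y :=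
    integral_mono_on hσ (hfc.intervalIntegrable _ _) (continuous_const.intervalIntegrable _ _)
      fun τ _ => hf1 τ
  rw [intervalIntegral.integral_const, smul_eq_mul, sub_zero] at h4
  linarith

/-- The pointwise comparison, along the line of the group `A`. -/
theorem group_le (H : Lev h K) {A B' B : Finset ι} (hAB : Disjoint A B') (hB : B = B' ∪ A)
    {x y yt : ℝ} (hx : 0 ≤ x) (hxy : x ≤ y) (L0 L : ι → ℝ)
    (hA : ∀ i ∈ A, |L i - L0 i| ≤ x / 2)
    (hB1 : ∀ i ∈ B', L i ≤ L0 i + x / 2) (hB2 : ∀ i ∈ B', L0 i + x + y - L i ≤ yt) :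
    mi h (L + blk B' y) (blk A y) (blk Bᶜ x) ≤
      mi h (fun i => if i ∈ A then L0 i - x else if i ∈ B' then L0 i + y + x else L i)
        (blk A (y + 2 * x)) (blk Bᶜ x) + mi h L (blk B' yt) (blk B'ᶜ x) := by
  have hy : 0 ≤ y := hx.trans hxy
  set z : ι → ℝ := fun i => if i ∈ B' then L0 i + x + y - L i else 0 with hz
  set cx : ι → ℝ := fun i => if i ∈ A then L0 i - x else if i ∈ B' then L0 i + y + x else L i
    with hcx
  set w : ι → ℝ := fun i => if i ∈ A then L i - L0 i + x else 0 with hw
  have hAc : Disjoint A Bᶜ := by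
    rw [Finset.disjoint_left]
    intro i hi
    rw [Finset.mem_compl, not_not, hB]
    exact Finset.mem_union_right _ hi
  have hB'c : Disjoint B' Bᶜ := by
    rw [Finset.disjoint_left]
    intro i hi
    rw [Finset.mem_compl, not_not, hB]
    exact Finset.mem_union_left _ hi
  have hzy : blk B' y ≤ z := by
    intro i
    simp only [blk, hz]
    split_ifs with hi
    · linarith [hB1 i hi]
    · exact le_rfl
  have hz0 : 0 ≤ z := (blk_nonneg B' hy).trans hzy
  have hzt : z ≤ blk B' yt := by
    intro i
    simp only [blk, hz]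
    split_ifs with hi
    · exact hB2 i hi
    · exact le_rfl
  have hw0 : 0 ≤ w := by
    intro i
    simp only [hw]
    split_ifs with hi
    · have := abs_le.1 (hA i hi)
      simp only [Pi.zero_apply]
      linarith
    · exact le_rfl
  have hwy : w + blk A y ≤ blk A (y + 2 * x) := by
    intro i
    simp only [Pi.add_apply, hw, blk]
    split_ifs with hi
    · have := abs_le.1 (hA i hi)
      linarith
    · rw [add_zero]
  have e1 : L + z = cx + w := by
    funext i
    simp only [Pi.add_apply, hz, hcx, hw]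
    by_cases hi : i ∈ A
    · rw [if_neg (Finset.disjoint_left.1 hAB hi), if_pos hi, if_pos hi]
      ring
    · by_cases hj : i ∈ B'
      · rw [if_pos hj, if_neg hi, if_pos hj, if_neg hi]
        ring
      · rw [if_neg hj, if_neg hi, if_neg hj, if_neg hi]
  -- the first step
  have hdz : ∀ (b : ι → ℝ), Dsj (blk B' yt) b → Dsj z b := by
    intro b hb i
    rcases hb i with e | e
    · refine Or.inl (le_antisymm ?_ (hz0 i))
      have := hzt i
      rw [e] at this
      exact this
    · exact Or.inr e
  have hzA : Dsj z (blk A y) := by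
    intro i
    simp only [hz, blk]
    by_cases hi : i ∈ A
    · exact Or.inl (if_neg (Finset.disjoint_left.1 hAB hi))
    · exact Or.inr (if_neg hi)
  have hzB : Dsj z (blk Bᶜ x) := by
    intro i
    simp only [hz, blk]
    by_cases hi : i ∈ B'
    · exact Or.inr (if_neg (Finset.disjoint_left.1 hB'c hi))
    · exact Or.inl (if_neg hi)
  have e2 : L + blk B' y + (z - blk B' y) = L + z := by
    rw [add_assoc, add_sub_cancel]
  have hzs : ∀ b : ι → ℝ, Dsj z b → Dsj (z - blk B' y) b := by
    intro b hb i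
    rcases hb i with e | e
    · refine Or.inl ?_
      have h1 := hzy i
      have h2 := blk_nonneg B' hy i
      rw [e] at h1
      simp only [Pi.sub_apply]
      rw [e, le_antisymm h1 h2]
      simp only [sub_self]
    · exact Or.inr e
  have h1 := H.mi_cond (L + blk B' y) (blk_nonneg A hy) (blk_nonneg Bᶜ hx)
    (sub_nonneg.2 hzy) (blk_dsj hAc y x) (hzs _ hzA) (hzs _ hzB)
  rw [e2] at h1
  -- the second term
  have h2 : mi h (L + blk B' y) (z - blk B' y) (blk Bᶜ x) ≤ mi h L z (blk Bᶜ x) := by
    have h3 := mi_add h L (blk B' y) (z - blk B' y) (blk Bᶜ x)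
    rw [add_sub_cancel] at h3
    have h4 := H.nonneg_mi L (blk_nonneg B' hy) (blk_nonneg Bᶜ hx) (blk_dsj hB'c y x)
    linarith
  have h3 : mi h L z (blk Bᶜ x) ≤ mi h L (blk B' yt) (blk B'ᶜ x) := by
    refine H.mi_mono L hz0 hzt (blk_nonneg _ hx) ?_ (blk_dsj disjoint_compl_right yt x)
    intro i
    simp only [blk, Finset.mem_compl]
    by_cases hi : i ∈ B'
    · have : i ∈ B := by
        rw [hB]
        exact Finset.mem_union_left _ hi
      rw [if_neg (by tauto), if_neg (by tauto)]
    · by_cases hj : i ∈ B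
      · rw [if_neg (not_not.2 hj), if_pos hi]
        exact hx
      · rw [if_pos hj, if_pos hi]
  -- the first term
  have h4 : mi h (L + z) (blk A y) (blk Bᶜ x) ≤ mi h cx (blk A (y + 2 * x)) (blk Bᶜ x) := by
    rw [e1]
    have hd : Dsj (blk A (y + 2 * x)) (blk Bᶜ x) := blk_dsj hAc _ _
    have h5 := H.mi_left cx (add_nonneg hw0 (blk_nonneg A hy)) hwy (blk_nonneg Bᶜ hx) hd
    rw [mi_add] at h5
    have h6 : 0 ≤ mi h cx w (blk Bᶜ x) := by
      refine H.nonneg_mi cx hw0 (blk_nonneg _ hx) ?_
      intro i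
      simp only [hw, blk]
      by_cases hi : i ∈ A
      · exact Or.inr (if_neg (Finset.disjoint_left.1 hAc hi))
      · exact Or.inl (if_neg hi)
    linarith
  linarith

end Pool.GEN.LL
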