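import Pool.Agent.H41.GEN.Ll2

/-!
# Level lines (LL): independence of the lower groups, averaged over a square
-/

set_option autoImplicit false
set_option linter.unusedSectionVars false
set_option linter.unusedVariables false

namespace Pool.GEN.LL

open Finset Real MeasureTheory intervalIntegral

variable {ι : Type} [Fintype ι] [DecidableEq ι]

/-- Double integrals over squares are monotone. -/
theorem sq_mono {F G : ℝ → ℝ → ℝ} {R : ℝ} (hR : 0 ≤ R) (hF : Continuous (Function.uncurry F))
    (hG : Continuous (Function.uncurry G)) (h : ∀ s t, F s t ≤ G s t) :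
    ∫ s in (-R)..R, ∫ t in (-R)..R, F s t ≤ ∫ s in (-R)..R, ∫ t in (-R)..R, G s t := by
  refine integral_mono_on (by linarith) ?_ ?_ fun s _ => ?_
  · exact (continuous_parametric_intervalIntegral_of_continuous' hF _ _).intervalIntegrable _ _
  · exact (continuous_parametric_intervalIntegral_of_continuous' hG _ _).intervalIntegrable _ _
  · exact integral_mono_on (by linarith) ((cont_snd hF s).intervalIntegrable _ _)
      ((cont_snd hG s).intervalIntegrable _ _) fun t _ => h s t

theorem sq_add {F G : ℝ → ℝ → ℝ} {R : ℝ} (hF : Continuous (Function.uncurry F))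
    (hG : Continuous (Function.uncurry G)) :
    ∫ s in (-R)..R, ∫ t in (-R)..R, (2 * F s t + G s t) =
      2 * (∫ s in (-R)..R, ∫ t in (-R)..R, F s t) + ∫ s in (-R)..R, ∫ t in (-R)..R, G s t := by
  have e : ∀ s, ∫ t in (-R)..R, (2 * F s t + G s t) =
      2 * (∫ t in (-R)..R, F s t) + ∫ t in (-R)..R, G s t := by
    intro s
    rw [integral_add (((cont_snd hF s).intervalIntegrable _ _).const_mul 2)
      ((cont_snd hG s).intervalIntegrable _ _), intervalIntegral.integral_const_mul]
  simp only [e]
  have h1 := (continuous_parametric_intervalIntegral_of_continuous' (μ := volume) hF (-R)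
    R).intervalIntegrable (μ := volume) (-R) R
  have h2 := (continuous_parametric_intervalIntegral_of_continuous' (μ := volume) hG (-R)
    R).intervalIntegrable (μ := volume) (-R) R
  rw [integral_add (h1.const_mul 2) h2, intervalIntegral.integral_const_mul]

theorem sq_const (R c : ℝ) : ∫ s in (-R)..R, ∫ t in (-R)..R, c = 4 * R ^ 2 * c := by
  simp only [intervalIntegral.integral_const, smul_eq_mul]
  ring

/-- The step of the induction, for `y ≤ 1`. -/
theorem ll_step {h : (ι → ℝ) → ℝ} {K : ℝ} (H : Lev h K) {A B' B : Finset ι}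
    (hAB : Disjoint A B') (hB : B = B' ∪ A) {a c u : ι → ℝ} {v κ D R x y : ℝ}
    (hκ : 0 < κ) (hR : 0 ≤ R) (hA : ∀ i ∈ A, u i = v) (hB' : ∀ i ∈ B', 0 ≤ c i * (v - u i))
    (hD : ∀ i ∈ B', c i * (v - u i) ≤ D) (hD0 : 0 ≤ D) (hBc : ∀ i ∉ B, κ ≤ c i * (u i - v))
    (hx : 0 < x) (hxy : x ≤ y) (hy1 : y ≤ 1) {L : ℝ → ℝ → ι → ℝ}
    (hL : Continuous (Function.uncurry L)) (haf : Aff L a c u (x / 4)) :
    ∫ s in (-R)..R, ∫ t in (-R)..R, mi h (L s t) (blk B y) (blk Bᶜ x) ≤
      2 * (∫ s in (-R)..R, ∫ t in (-R)..R,
        mi h (L s t) (blk B' ((5 / 2 + D) * √y)) (blk B'ᶜ x)) +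
      (2 * R / √y + 1) * ((3 / 2 * x / κ) * (K * (y + 2 * x))) * (2 * (R * (1 + |v|))) := by
  have hK := H.K_nonneg
  have hcont := H.cont hK
  have hy : 0 < y := lt_of_lt_of_le hx hxy
  set T := √y with hT
  have hT0 : 0 < T := Real.sqrt_pos.2 hy
  have hT1 : T ≤ 1 := Real.sqrt_le_one.2 hy1
  have hyT : y ≤ T := by
    have h1 : T * T = y := Real.mul_self_sqrt hy.le
    nlinarith
  set yt := (5 / 2 + D) * T with hyt
  set σ := 3 / 2 * x / κ with hσ
  have hσ0 : 0 ≤ σ := by positivity
  have hyyt : y ≤ yt := by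
    rw [hyt]
    nlinarith
  have hyt0 : 0 ≤ yt := hy.le.trans hyyt
  have hAc : Disjoint A Bᶜ := by
    rw [Finset.disjoint_left]
    intro i hi
    rw [Finset.mem_compl, not_not, hB]
    exact Finset.mem_union_right _ hi
  have hB'c : Disjoint B' Bᶜ := by
    rw [Finset.disjoint_left]
    intro i hi
    rw [Finset.mem_compl, not_not, hB]
    exact Finset.mem_union_left _ hi
  set F : ℝ → ℝ → ℝ := fun s t => mi h (L s t) (blk B' yt) (blk B'ᶜ x) with hF
  set G1 : ℝ → ℝ → ℝ := fun s t => mi h (L s t + blk B' y) (blk A y) (blk Bᶜ x) with hG1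
  have hFc : Continuous (Function.uncurry F) := cont_mi H hL _ _
  have hL' : Continuous (Function.uncurry fun s t => L s t + blk B' y) := by
    have e : (Function.uncurry fun s t => L s t + blk B' y) =
        fun p => (Function.uncurry L) p + blk B' y := rfl
    rw [e]
    exact hL.add continuous_const
  have hG1c : Continuous (Function.uncurry G1) := cont_mi H hL' _ _
  set G : ℝ → ℝ → ℝ := fun s t => max 0 (G1 s t - F s t) with hG
  have hGc : Continuous (Function.uncurry G) := by
    have e : (Function.uncurry G) =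
        fun p => max 0 ((Function.uncurry G1) p - (Function.uncurry F) p) := rfl
    rw [e]
    exact continuous_const.max (hG1c.sub hFc)
  -- the bound on lines
  have hline : ∀ s t, ∫ τ in (0 : ℝ)..T, G (s + τ) (t - v * τ) ≤ σ * (K * (y + 2 * x)) := by
    intro s t
    set cx : ℝ → ι → ℝ := fun τ i => if i ∈ A then L s t i - x else
      if i ∈ B' then L s t i + y + x else L (s + τ) (t - v * τ) i with hcx
    have hLτ : Continuous fun τ : ℝ => L (s + τ) (t - v * τ) := by
      have e : (fun τ : ℝ => L (s + τ) (t - v * τ)) =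
          (Function.uncurry L) ∘ fun τ : ℝ => (s + τ, t - v * τ) := rfl
      rw [e]
      exact hL.comp (by fun_prop)
    have hcxc : Continuous cx := by
      refine continuous_pi fun i => ?_
      simp only [hcx]
      split_ifs
      · exact continuous_const
      · exact continuous_const
      · exact (continuous_apply i).comp hLτ
    have hdif : ∀ τ τ' i, |L (s + τ') (t - v * τ') i - L (s + τ) (t - v * τ) i -
        c i * (u i - v) * (τ' - τ)| ≤ x / 2 := by
      intro τ τ' i
      have h1 := abs_le.1 (haf (s + τ') (t - v * τ') i)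
      have h2 := abs_le.1 (haf (s + τ) (t - v * τ) i)
      rw [abs_le]
      constructor
      · linarith [h1.1, h2.2]
      · linarith [h1.2, h2.1]
    have hdif0 : ∀ τ i, |L (s + τ) (t - v * τ) i - L s t i - c i * (u i - v) * τ| ≤ x / 2 := by
      intro τ i
      have := hdif 0 τ i
      rwa [add_zero, mul_zero, sub_zero, sub_zero] at this
    have hmc : Continuous fun τ => mi h (cx τ) (blk A (y + 2 * x)) (blk Bᶜ x) := by
      unfold mi
      exact (((hcont.comp (hcxc.add continuous_const)).add
        (hcont.comp (hcxc.add continuous_const))).sub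
        (hcont.comp ((hcxc.add continuous_const).add continuous_const))).sub (hcont.comp hcxc)
    have hGτ : Continuous fun τ : ℝ => G (s + τ) (t - v * τ) := by
      have e : (fun τ : ℝ => G (s + τ) (t - v * τ)) =
          (Function.uncurry G) ∘ fun τ : ℝ => (s + τ, t - v * τ) := rfl
      rw [e]
      exact hGc.comp (by fun_prop)
    have h1 : ∫ τ in (0 : ℝ)..T, G (s + τ) (t - v * τ) ≤
        ∫ τ in (0 : ℝ)..T, mi h (cx τ) (blk A (y + 2 * x)) (blk Bᶜ x) := by
      refine integral_mono_on hT0.le (hGτ.intervalIntegrable _ _) (hmc.intervalIntegrable _ _)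
        fun τ hτ => ?_
      simp only [hG]
      refine max_le ?_ ?_
      · exact H.nonneg_mi _ (blk_nonneg _ (by positivity)) (blk_nonneg _ hx.le)
          (blk_dsj hAc _ _)
      · have h2 := group_le H hAB hB hx.le hxy (yt := yt) (L s t) (L (s + τ) (t - v * τ))
          (fun i hi => ?_) (fun i hi => ?_) (fun i hi => ?_)
        · simp only [hG1, hF, hcx]
          linarith
        · have h3 := hdif0 τ i
          rw [hA i hi, sub_self, mul_zero, zero_mul, sub_zero] at h3
          exact h3
        · have h3 := abs_le.1 (hdif0 τ i)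
          have h4 := mul_nonneg (hB' i hi) hτ.1
          have e : c i * (u i - v) * τ = -(c i * (v - u i) * τ) := by ring
          linarith [h3.2]
        · have h3 := abs_le.1 (hdif0 τ i)
          have h4 : c i * (v - u i) * τ ≤ D * T :=
            mul_le_mul (hD i hi) hτ.2 hτ.1 hD0
          have e : c i * (u i - v) * τ = -(c i * (v - u i) * τ) := by ring
          rw [hyt]
          linarith [h3.1]
    refine h1.trans (telescope H A hx.le (by positivity) hσ0 hT0.le cx hcxc ?_ ?_ Bᶜ hAc ?_)
    · intro τ τ' i hi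
      simp only [hcx, if_pos hi]
    · intro τ i hi
      simp only [hcx, if_neg hi]
      split_ifs with hj
      · exact le_rfl
      · have h3 := abs_le.1 (hdif τ (τ + σ) i)
        have h4 : i ∉ B := by
          rw [hB, Finset.mem_union]
          tauto
        have h5 : κ * σ ≤ c i * (u i - v) * σ := mul_le_mul_of_nonneg_right (hBc i h4) hσ0
        have h6 : κ * σ = 3 / 2 * x := by
          rw [hσ]
          field_simp
        have e : c i * (u i - v) * (τ + σ - τ) = c i * (u i - v) * σ := by ring
        rw [e] at h3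
        linarith [h3.1]
    · intro τ i hi
      have h4 : i ∉ B := Finset.mem_compl.1 hi
      have hi1 : i ∉ A := fun h' => h4 (by
        rw [hB]
        exact Finset.mem_union_right _ h')
      have hi2 : i ∉ B' := fun h' => h4 (by
        rw [hB]
        exact Finset.mem_union_left _ h')
      simp only [hcx, if_neg hi1, if_neg hi2]
      have h3 := abs_le.1 (hdif τ (τ + σ) i)
      have h5 : κ * σ ≤ c i * (u i - v) * σ := mul_le_mul_of_nonneg_right (hBc i h4) hσ0
      have h6 : κ * σ = 3 / 2 * x := by
        rw [hσ]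
        field_simp
      have e : c i * (u i - v) * (τ + σ - τ) = c i * (u i - v) * σ := by ring
      rw [e] at h3
      linarith [h3.1]
  have h1 := line_avg hGc (fun s t => le_max_left _ _) v T _ R hT0 hR hline
  -- pointwise
  have h2 : ∀ s t, mi h (L s t) (blk B y) (blk Bᶜ x) ≤ 2 * F s t + G s t := by
    intro s t
    have e : blk B y = blk B' y + blk A y := by
      rw [hB, blk_add hAB.symm]
    rw [e, mi_add]
    have h3 : mi h (L s t) (blk B' y) (blk Bᶜ x) ≤ F s t := by
      refine H.mi_mono _ (blk_nonneg _ hy.le) (blk_mono _ hyyt) (blk_nonneg _ hx.le) ?_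
        (blk_dsj disjoint_compl_right _ _)
      intro i
      simp only [blk, Finset.mem_compl]
      by_cases hi : i ∈ B'
      · have : i ∈ B := by
          rw [hB]
          exact Finset.mem_union_left _ hi
        rw [if_neg (by tauto), if_neg (by tauto)]
      · by_cases hj : i ∈ B
        · rw [if_neg (not_not.2 hj), if_pos hi]
          exact hx.le
        · rw [if_pos hj, if_pos hi]
    have h4 : G1 s t - F s t ≤ G s t := le_max_right _ _
    have h5 : mi h (L s t + blk B' y) (blk A y) (blk Bᶜ x) = G1 s t := rfl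
    rw [h5]
    linarith
  have hmm : Continuous (Function.uncurry fun s t => mi h (L s t) (blk B y) (blk Bᶜ x)) :=
    cont_mi H hL _ _
  have hFG : Continuous (Function.uncurry fun s t => 2 * F s t + G s t) := by
    have e : (Function.uncurry fun s t => 2 * F s t + G s t) =
        fun p => 2 * (Function.uncurry F) p + (Function.uncurry G) p := rfl
    rw [e]
    exact (continuous_const.mul hFc).add hGc
  have h3 := sq_mono hR hmm hFG h2
  rw [sq_add hFc hGc] at h3
  exact h3.trans (by linarith)

/-- **(LL), averaged over a square.** -/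
theorem ll_sq (K : ℝ) (c u : ι → ℝ) (hc : ∀ i, 0 < c i) : ∀ (n : ℕ) (B : Finset ι),
    B.card ≤ n → (∀ i ∈ B, ∀ j, j ∉ B → u i < u j) → ∀ R : ℝ, 0 ≤ R → ∃ C : ℝ, 0 ≤ C ∧
      ∀ h : (ι → ℝ) → ℝ, Lev h K → ∀ (a : ι → ℝ) (L : ℝ → ℝ → ι → ℝ) (x y : ℝ), 0 < x → x ≤ y →
        Continuous (Function.uncurry L) → Aff L a c u (x / 4) →
        ∫ s in (-R)..R, ∫ t in (-R)..R, mi h (L s t) (blk B y) (blk Bᶜ x) ≤
          C * x * y ^ ((1 / 2 : ℝ) ^ B.card) := by
  intro n
  induction n with
  | zero =>
    intro B hn hlow R hR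
    refine ⟨0, le_rfl, fun h H a L x y hx hxy hL haf => ?_⟩
    have e : B = ∅ := Finset.card_eq_zero.1 (Nat.le_zero.1 hn)
    have e1 : blk B y = 0 := by
      rw [e]
      funext i
      simp only [blk, Finset.notMem_empty, if_false]
      rfl
    rw [e1]
    simp only [mi_zero, intervalIntegral.integral_zero, zero_mul, le_refl]
  | succ n ih =>
    intro B hn hlow R hR
    rcases Finset.eq_empty_or_nonempty B with e | hne
    · exact ih B (by rw [e, Finset.card_empty]; exact Nat.zero_le _) hlow R hR
    obtain ⟨i0, hi0, hmax⟩ := Finset.exists_max_image B u hne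
    set v := u i0 with hv
    set A := B.filter fun i => u i = v with hA
    set B' := B.filter fun i => u i < v with hB'
    have hAB : Disjoint A B' := by
      rw [Finset.disjoint_left]
      intro i hi hj
      rw [hA, Finset.mem_filter] at hi
      rw [hB', Finset.mem_filter] at hj
      exact absurd hi.2 hj.2.ne
    have hB : B = B' ∪ A := by
      ext i
      rw [Finset.mem_union, hA, hB', Finset.mem_filter, Finset.mem_filter]
      constructor
      · intro hi
        rcases lt_or_eq_of_le (hmax i hi) with e | e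
        · exact Or.inl ⟨hi, e⟩
        · exact Or.inr ⟨hi, e⟩
      · rintro (hi | hi)
        · exact hi.1
        · exact hi.1
    have hcard : B'.card < B.card := by
      refine Finset.card_lt_card ?_
      rw [Finset.ssubset_iff_of_subset (Finset.filter_subset _ _)]
      refine ⟨i0, hi0, fun h' => ?_⟩
      rw [Finset.mem_filter] at h'
      exact absurd h'.2 (lt_irrefl _)
    have hlow' : ∀ i ∈ B', ∀ j, j ∉ B' → u i < u j := by
      intro i hi j hj
      rw [hB', Finset.mem_filter] at hi hj
      by_cases hjB : j ∈ B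
      · exact lt_of_lt_of_le hi.2 (not_lt.1 fun h' => hj ⟨hjB, h'⟩)
      · exact hlow i hi.1 j hjB
    obtain ⟨C', hC', hI⟩ := ih B' (by omega) hlow' R hR
    -- the constants
    obtain ⟨κ, hκ, hκB⟩ : ∃ κ : ℝ, 0 < κ ∧ ∀ i ∉ B, κ ≤ c i * (u i - v) := by
      rcases Finset.eq_empty_or_nonempty Bᶜ with e | hne'
      · refine ⟨1, one_pos, fun i hi => ?_⟩
        have : i ∈ Bᶜ := Finset.mem_compl.2 hi
        rw [e] at this
        exact absurd this (Finset.notMem_empty i)
      · obtain ⟨j, hj, hmin⟩ := Finset.exists_min_image Bᶜ (fun i => c i * (u i - v)) hne'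
        refine ⟨c j * (u j - v), mul_pos (hc j) (sub_pos.2 (hlow i0 hi0 j
          (Finset.mem_compl.1 hj))), fun i hi => hmin i (Finset.mem_compl.2 hi)⟩
    set D := ∑ i, c i * |v - u i| with hD
    have hD0 : 0 ≤ D := Finset.sum_nonneg fun i _ => mul_nonneg (hc i).le (abs_nonneg _)
    have hDi : ∀ i, c i * (v - u i) ≤ D := by
      intro i
      have h1 := Finset.single_le_sum (f := fun i => c i * |v - u i|)
        (fun i _ => mul_nonneg (hc i).le (abs_nonneg _)) (Finset.mem_univ i)
      exact (mul_le_mul_of_nonneg_left (le_abs_self _) (hc i).le).trans h1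
    set β := (1 / 2 : ℝ) ^ B.card with hβ
    set β' := (1 / 2 : ℝ) ^ B'.card with hβ'
    have hβ0 : 0 < β := by positivity
    have hβ'0 : 0 < β' := by positivity
    have hββ : β ≤ β' / 2 := by
      rw [hβ, hβ']
      have h1 : (1 / 2 : ℝ) ^ B.card ≤ (1 / 2 : ℝ) ^ (B'.card + 1) :=
        pow_le_pow_of_le_one (by norm_num) (by norm_num) hcard
      rw [pow_succ] at h1
      linarith
    have hβ1 : β' ≤ 1 := pow_le_one₀ (by norm_num) (by norm_num)
    set C1 := (2 * R + 1) * (9 / 2 / κ * |K|) * (2 * (R * (1 + |v|))) with hC1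
    have hC10 : 0 ≤ C1 := by positivity
    refine ⟨2 * C' * (5 / 2 + D) ^ β' + C1 + 4 * R ^ 2 * |K|, by positivity, ?_⟩
    intro h H a L x y hx hxy hL haf
    have hK := H.K_nonneg
    have hKe : |K| = K := abs_of_nonneg hK
    have hy : 0 < y := lt_of_lt_of_le hx hxy
    have hyβ : 0 ≤ y ^ β := (Real.rpow_pos_of_pos hy _).le
    have hterm1 : 0 ≤ 2 * C' * (5 / 2 + D) ^ β' := by positivity
    rcases le_or_gt y 1 with hy1 | hy1
    · have h1 := ll_step H hAB hB (v := v) (D := D) hκ hR
        (fun i hi => (Finset.mem_filter.1 hi).2)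
        (fun i hi => mul_nonneg (hc i).le (sub_nonneg.2 (Finset.mem_filter.1 hi).2.le))
        (fun i _ => hDi i) hD0 hκB hx hxy hy1 hL haf
      have hT0 : 0 < √y := Real.sqrt_pos.2 hy
      have hT1 : √y ≤ 1 := Real.sqrt_le_one.2 hy1
      have hTT : √y * √y = y := Real.mul_self_sqrt hy.le
      have hyT : y ≤ √y := by nlinarith
      have hxyt : x ≤ (5 / 2 + D) * √y := by nlinarith
      have h2 := hI h H a L x ((5 / 2 + D) * √y) hx hxyt hL haf
      -- exponents
      have h3 : ((5 / 2 + D) * √y) ^ β' ≤ (5 / 2 + D) ^ β' * y ^ β := by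
        rw [Real.mul_rpow (by positivity) hT0.le]
        refine mul_le_mul_of_nonneg_left ?_ (by positivity)
        rw [Real.sqrt_eq_rpow, ← Real.rpow_mul hy.le]
        exact Real.rpow_le_rpow_of_exponent_ge hy hy1 (by linarith)
      have h4 : √y ≤ y ^ β := by
        rw [Real.sqrt_eq_rpow]
        exact Real.rpow_le_rpow_of_exponent_ge hy hy1 (by linarith)
      have h5 : (2 * R / √y + 1) * ((3 / 2 * x / κ) * (K * (y + 2 * x))) *
          (2 * (R * (1 + |v|))) ≤ C1 * x * y ^ β := by
        have h6 : (2 * R / √y + 1) ≤ (2 * R + 1) / √y := by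
          rw [add_div]
          have : 1 ≤ 1 / √y := by
            rw [le_div_iff₀ hT0]
            linarith
          linarith
        have h7 : (3 / 2 * x / κ) * (K * (y + 2 * x)) ≤ 9 / 2 / κ * K * (x * y) := by
          have h8 : K * (y + 2 * x) ≤ K * (3 * y) := mul_le_mul_of_nonneg_left (by linarith) hK
          calc (3 / 2 * x / κ) * (K * (y + 2 * x)) ≤ (3 / 2 * x / κ) * (K * (3 * y)) :=
                mul_le_mul_of_nonneg_left h8 (by positivity)
            _ = 9 / 2 / κ * K * (x * y) := by ring
        have h8 : (2 * R / √y + 1) * ((3 / 2 * x / κ) * (K * (y + 2 * x))) ≤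
            (2 * R + 1) / √y * (9 / 2 / κ * K * (x * y)) :=
          mul_le_mul h6 h7 (by positivity) (by positivity)
        have h9 : (2 * R + 1) / √y * (9 / 2 / κ * K * (x * y)) =
            (2 * R + 1) * (9 / 2 / κ * K) * x * √y := by
          have e : y / √y = √y := by
            rw [div_eq_iff hT0.ne', hTT]
          calc (2 * R + 1) / √y * (9 / 2 / κ * K * (x * y)) =
                (2 * R + 1) * (9 / 2 / κ * K) * x * (y / √y) := by ring
            _ = (2 * R + 1) * (9 / 2 / κ * K) * x * √y := by rw [e]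
        have h10 : (2 * R + 1) * (9 / 2 / κ * K) * x * √y ≤
            (2 * R + 1) * (9 / 2 / κ * K) * x * y ^ β :=
          mul_le_mul_of_nonneg_left h4 (by positivity)
        calc (2 * R / √y + 1) * ((3 / 2 * x / κ) * (K * (y + 2 * x))) *
              (2 * (R * (1 + |v|))) ≤
              (2 * R + 1) * (9 / 2 / κ * K) * x * y ^ β * (2 * (R * (1 + |v|))) :=
              mul_le_mul_of_nonneg_right ((h8.trans h9.le).trans h10) (by positivity)
          _ = C1 * x * y ^ β := by
              rw [hC1, hKe]
              ring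
      have h6 : C' * x * ((5 / 2 + D) * √y) ^ β' ≤ C' * (5 / 2 + D) ^ β' * x * y ^ β := by
        calc C' * x * ((5 / 2 + D) * √y) ^ β' ≤ C' * x * ((5 / 2 + D) ^ β' * y ^ β) :=
              mul_le_mul_of_nonneg_left h3 (by positivity)
          _ = C' * (5 / 2 + D) ^ β' * x * y ^ β := by ring
      have h7 : 0 ≤ 4 * R ^ 2 * |K| * x * y ^ β := by positivity
      calc ∫ s in (-R)..R, ∫ t in (-R)..R, mi h (L s t) (blk B y) (blk Bᶜ x) ≤
            2 * (C' * (5 / 2 + D) ^ β' * x * y ^ β) + C1 * x * y ^ β := by linarith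
        _ ≤ (2 * C' * (5 / 2 + D) ^ β' + C1 + 4 * R ^ 2 * |K|) * x * y ^ β := by linarith
    · have h1 : ∀ s t, mi h (L s t) (blk B y) (blk Bᶜ x) ≤ K * x := fun s t =>
        H.mi_le _ (blk_nonneg _ hy.le) _ hx.le
      have h2 := sq_mono hR (cont_mi H hL (blk B y) (blk Bᶜ x))
        (G := fun _ _ => K * x) continuous_const h1
      rw [sq_const] at h2
      have h3 : 1 ≤ y ^ β := Real.one_le_rpow hy1.le hβ0.le
      have h4 : 4 * R ^ 2 * (K * x) ≤ 4 * R ^ 2 * |K| * x * y ^ β := by
        rw [hKe]
        have : 0 ≤ 4 * R ^ 2 * K * x := by positivity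
        nlinarith
      have h5 : 0 ≤ (2 * C' * (5 / 2 + D) ^ β' + C1) * x * y ^ β := by positivity
      linarith

end Pool.GEN.LL
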