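import Pool.Agent.H41.GEN.Ll3

/-!
# Level lines (LL): final forms

* `ll_loc`: levels which are affine up to `x / 4` near a point, square of size `d`.
* `ll_path`: one path, one group.
* `tc_le`: the total correlation of the groups.
-/

set_option autoImplicit false
set_option linter.unusedSectionVars false
set_option linter.unusedVariables false

namespace Pool.GEN.LL

open Finset Real MeasureTheory intervalIntegral

variable {ι : Type} [Fintype ι] [DecidableEq ι]

theorem Lev.scale {h : (ι → ℝ) → ℝ} {K : ℝ} (H : Lev h K) {d : ℝ} (hd : 0 < d) :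
    Lev (fun L => h (fun i => d * L i) / d) K := by
  refine ⟨fun L M hLM => ?_, fun L M => ?_, fun L s hs => ?_⟩
  · refine div_le_div_of_nonneg_right (H.mono fun i => ?_) hd.le
    exact mul_le_mul_of_nonneg_left (hLM i) hd.le
  · have h1 := H.sub (fun i => d * L i) (fun i => d * M i)
    have e1 : (fun i => d * L i) ⊔ (fun i => d * M i) = fun i => d * (L ⊔ M) i := by
      funext i
      simp only [Pi.sup_apply]
      exact (mul_max_of_nonneg _ _ hd.le).symm
    have e2 : (fun i => d * L i) ⊓ (fun i => d * M i) = fun i => d * (L ⊓ M) i := by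
      funext i
      simp only [Pi.inf_apply]
      exact (mul_min_of_nonneg _ _ hd.le).symm
    rw [e1, e2] at h1
    rw [← add_div, ← add_div]
    exact div_le_div_of_nonneg_right h1 hd.le
  · have h1 := H.lip (fun i => d * L i) (d * s) (by positivity)
    rw [div_le_iff₀ hd, add_mul, div_mul_cancel₀ _ hd.ne']
    have e : (fun i => d * (L i + s)) = fun i => d * L i + d * s := by
      funext i
      ring
    rw [e]
    linarith

theorem mi_scale (h : (ι → ℝ) → ℝ) {d : ℝ} (hd : 0 < d) (L : ι → ℝ) (A B : Finset ι)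
    (x y : ℝ) : mi (fun L => h (fun i => d * L i) / d) (fun i => L i / d) (blk A (y / d))
      (blk B (x / d)) = mi h L (blk A y) (blk B x) / d := by
  have e1 : ∀ (A : Finset ι) (x : ℝ) (i : ι), d * blk A (x / d) i = blk A x i := by
    intro A x i
    unfold blk
    split_ifs
    · exact mul_div_cancel₀ x hd.ne'
    · exact mul_zero d
  have e2 : ∀ i, d * (L i / d) = L i := fun i => mul_div_cancel₀ _ hd.ne'
  unfold mi
  simp only [Pi.add_apply, mul_add, e1, e2]
  have e3 : ∀ a : ι → ℝ, h (fun i => L i + a i) = h (L + a) := fun a => rfl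
  have e4 : h (fun i => L i + blk A y i + blk B x i) = h (L + blk A y + blk B x) := rfl
  rw [e3, e3, e4]
  ring

/-- **(LL), local form.** On the square of size `d` at `(s₀, t₀)`, where the levels are affine up
to `x / 4` with rates `c i > 0` and slopes `u i`: for every lower set `B` of slopes, the mean
mutual information of the `y`-blocks of `B` and the `x`-blocks of the other coordinates given the
natural levels is at most `C x (y / d) ^ β`. -/
theorem ll_loc (K : ℝ) (c u : ι → ℝ) (hc : ∀ i, 0 < c i) (B : Finset ι)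
    (hB : ∀ i ∈ B, ∀ j, j ∉ B → u i < u j) (R : ℝ) (hR : 0 ≤ R) : ∃ C : ℝ, 0 ≤ C ∧
      ∀ h : (ι → ℝ) → ℝ, Lev h K → ∀ (a : ι → ℝ) (L : ℝ → ℝ → ι → ℝ) (s₀ t₀ d x y : ℝ), 0 < d →
        0 < x → x ≤ y → Continuous (Function.uncurry L) →
        (∀ s t i, |L s t i - (a i + c i * (t + u i * s))| ≤ x / 4) →
        ∫ s in (-R)..R, ∫ t in (-R)..R,
          mi h (L (s₀ + d * s) (t₀ + d * t)) (blk B y) (blk Bᶜ x) ≤
          C * x * (y / d) ^ ((1 / 2 : ℝ) ^ B.card) := by
  obtain ⟨C, hC, hI⟩ := ll_sq K c u hc B.card B le_rfl hB R hR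
  refine ⟨C, hC, fun h H a L s₀ t₀ d x y hd hx hxy hL haf => ?_⟩
  have h1 := hI (fun L => h (fun i => d * L i) / d) (H.scale hd)
    (fun i => (a i + c i * (t₀ + u i * s₀)) / d)
    (fun s t i => L (s₀ + d * s) (t₀ + d * t) i / d) (x / d) (y / d) (by positivity)
    (div_le_div_of_nonneg_right hxy hd.le) ?_ ?_
  · have e : ∀ s t, mi (fun L => h (fun i => d * L i) / d)
        (fun i => L (s₀ + d * s) (t₀ + d * t) i / d) (blk B (y / d)) (blk Bᶜ (x / d)) =
        mi h (L (s₀ + d * s) (t₀ + d * t)) (blk B y) (blk Bᶜ x) / d := fun s t =>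
      mi_scale h hd _ _ _ _ _
    simp only [e, intervalIntegral.integral_div] at h1
    rw [div_le_iff₀ hd] at h1
    refine h1.trans (le_of_eq ?_)
    field_simp
  · have e : (Function.uncurry fun s t i => L (s₀ + d * s) (t₀ + d * t) i / d) =
        fun p => fun i => (Function.uncurry L (s₀ + d * p.1, t₀ + d * p.2)) i / d := rfl
    rw [e]
    refine continuous_pi fun i => ?_
    exact ((continuous_apply i).comp (hL.comp (by fun_prop))).div_const d
  · intro s t i
    have h2 := haf (s₀ + d * s) (t₀ + d * t) i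
    have e : L (s₀ + d * s) (t₀ + d * t) i / d - ((a i + c i * (t₀ + u i * s₀)) / d +
        c i * (t + u i * s)) = (L (s₀ + d * s) (t₀ + d * t) i -
        (a i + c i * (t₀ + d * t + u i * (s₀ + d * s)))) / d := by
      field_simp
      ring
    rw [e, abs_div, abs_of_pos hd, show x / d / 4 = x / 4 / d by ring]
    exact div_le_div_of_nonneg_right h2 hd.le

/-- **(LL), one path and one group.** The levels of `A` are constant up to `x / 2`, the other
levels increase at rate `κ` up to `x / 2`: for several times, windows fixed. -/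
theorem ll_path {h : (ι → ℝ) → ℝ} {K : ℝ} (H : Lev h K) (A : Finset ι) {κ x y T : ℝ}
    (hκ : 0 < κ) (hx : 0 < x) (hxy : x ≤ y) (hT : 0 ≤ T) {L : ℝ → ι → ℝ} (hL : Continuous L)
    (hA : ∀ τ τ', ∀ i ∈ A, |L τ i - L τ' i| ≤ x / 2)
    (hB : ∀ τ τ', τ ≤ τ' → ∀ i ∉ A, L τ i + κ * (τ' - τ) ≤ L τ' i + x / 2) :
    ∫ τ in (0 : ℝ)..T, mi h (L τ) (blk A y) (blk Aᶜ x) ≤
      (3 / 2 * x / κ) * (K * (y + 2 * x)) := by
  have hK := H.K_nonneg
  have hcont := H.cont hK
  have hy : 0 < y := lt_of_lt_of_le hx hxy
  set σ := 3 / 2 * x / κ with hσ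
  have hσ0 : 0 ≤ σ := by positivity
  set cx : ℝ → ι → ℝ := fun τ i => if i ∈ A then L 0 i - x else L τ i with hcx
  have hcxc : Continuous cx := by
    refine continuous_pi fun i => ?_
    simp only [hcx]
    split_ifs
    · exact continuous_const
    · exact (continuous_apply i).comp hL
  have hmc : ∀ {c : ℝ → ι → ℝ}, Continuous c → ∀ a b : ι → ℝ,
      Continuous fun τ => mi h (c τ) a b := by
    intro c hc a b
    unfold mi
    exact (((hcont.comp (hc.add continuous_const)).add
      (hcont.comp (hc.add continuous_const))).sub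
      (hcont.comp ((hc.add continuous_const).add continuous_const))).sub (hcont.comp hc)
  have h1 : ∫ τ in (0 : ℝ)..T, mi h (L τ) (blk A y) (blk Aᶜ x) ≤
      ∫ τ in (0 : ℝ)..T, mi h (cx τ) (blk A (y + 2 * x)) (blk Aᶜ x) := by
    refine integral_mono_on hT ((hmc hL _ _).intervalIntegrable _ _)
      ((hmc hcxc _ _).intervalIntegrable _ _) fun τ hτ => ?_
    have h2 := group_le H (B' := ∅) (B := A) (Finset.disjoint_empty_right A)
      (Finset.empty_union A).symm hx.le hxy (yt := 0) (L 0) (L τ)
      (fun i hi => hA τ 0 i hi) (fun i hi => absurd hi (Finset.notMem_empty i))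
      (fun i hi => absurd hi (Finset.notMem_empty i))
    have e1 : ∀ z : ℝ, blk (∅ : Finset ι) z = 0 := by
      intro z
      funext i
      simp only [blk, Finset.notMem_empty, if_false]
      rfl
    simp only [Finset.notMem_empty, if_false] at h2
    rw [e1, e1, mi_zero, add_zero, add_zero] at h2
    simp only [hcx]
    exact h2
  refine h1.trans (telescope H A hx.le (by positivity) hσ0 hT cx hcxc ?_ ?_ Aᶜ
    disjoint_compl_right ?_)
  · intro τ τ' i hi
    simp only [hcx, if_pos hi]
  · intro τ i hi
    simp only [hcx, if_neg hi]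
    have h3 := hB τ (τ + σ) (by linarith) i hi
    have h6 : κ * σ = 3 / 2 * x := by
      rw [hσ]
      field_simp
    rw [add_sub_cancel_left] at h3
    linarith
  · intro τ i hi
    have hi1 := Finset.mem_compl.1 hi
    simp only [hcx, if_neg hi1]
    have h3 := hB τ (τ + σ) (by linarith) i hi1
    have h6 : κ * σ = 3 / 2 * x := by
      rw [hσ]
      field_simp
    rw [add_sub_cancel_left] at h3
    linarith

/-! ### Total correlation -/

/-- The total correlation of the blocks of a partition into the levels of `g`. -/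
theorem chain_groups {h : (ι → ℝ) → ℝ} {K : ℝ} (H : Lev h K) (L : ι → ℝ) {x : ℝ} (hx : 0 ≤ x)
    (P : ℕ → Finset ι) (hP : ∀ k l, k ≠ l → Disjoint (P k) (P l)) (n : ℕ) :
    ∑ k ∈ Finset.range n, (h (L + blk (P k) x) - h L) -
      (h (L + blk ((Finset.range n).biUnion P) x) - h L) ≤
    ∑ k ∈ Finset.range n, mi h L (blk ((Finset.range k).biUnion P) x)
      (blk (((Finset.range k).biUnion P)ᶜ) x) := by
  induction n with
  | zero =>
    simp only [Finset.range_zero, Finset.sum_empty, Finset.biUnion_empty]
    have e1 : blk (∅ : Finset ι) x = 0 := by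
      funext i
      simp only [blk, Finset.notMem_empty, if_false]
      rfl
    rw [e1, add_zero]
    linarith
  | succ n ih =>
    rw [Finset.sum_range_succ, Finset.sum_range_succ]
    set U := (Finset.range n).biUnion P with hU
    have hd : Disjoint U (P n) := by
      rw [hU, Finset.disjoint_biUnion_left]
      intro k hk
      exact hP k n (ne_of_lt (Finset.mem_range.1 hk))
    have e : (Finset.range (n + 1)).biUnion P = U ∪ P n := by
      rw [Finset.range_add_one, Finset.biUnion_insert, Finset.union_comm]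
    rw [e, blk_add hd]
    have h1 : mi h L (blk U x) (blk (P n) x) ≤ mi h L (blk U x) (blk Uᶜ x) := by
      refine H.mi_mono L (blk_nonneg _ hx) le_rfl (blk_nonneg _ hx) ?_
        (blk_dsj disjoint_compl_right _ _)
      intro i
      unfold blk
      by_cases hi : i ∈ P n
      · rw [if_pos hi, if_pos (Finset.mem_compl.2 fun h' => Finset.disjoint_left.1 hd h' hi)]
      · rw [if_neg hi]
        split_ifs
        · exact hx
        · exact le_rfl
    unfold mi at h1 ih ⊢
    rw [← add_assoc]
    linarith

end Pool.GEN.LL
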